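import Pool.Agent.W900.RB.Basic
import Pool.Agent.W900.RB.Bpp
import Pool.Agent.W900.RB.Zpp
import Pool.Agent.W900.RB.ZFin

/-!
# How many strings of a random oracle have to be changed to make zero-error algorithms stronger than
deterministic ones?

For almost every oracle `O` the classes `P`, `ZPP`, `RP`, `BPP` relative to `O` are equal (Bennett,
Gill). Here the oracle `O` is changed by an adversary who knows it: for a function `g`, the oracle
`A` is obtained from `O` by changing, for all large `n`, at most `g n` of the strings of length at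
most `n`.

If `g` is polynomially bounded, then, for almost every `O`, still `P^A = ZPP^A = RP^A = BPP^A` for all
these `A`, however the changes depend on `O`. If `g` is not polynomially bounded, then, for almost
every `O`, there is such an `A` with `P^A ≠ ZPP^A = RP^A ∩ coRP^A`.

(Polynomially bounded means here that for some `c` and all large `n` there is `m ≥ n` with
`g m ≤ n ^ c`. If `g` is nondecreasing, this says that `g n ≤ n ^ c` for some `c` and all large `n`;
in general it is the right condition, since the number of changed strings of length at most `n` is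
nondecreasing in `n`.)
-/

set_option autoImplicit false

namespace Pool.Agent.Results.MP_34c247_lc.ChangedStrings

open Pool.Agent.NPC Pool.Agent.H620R2.Gauge Pool.Agent.W900.RB
open Pool.Agent.H628R3.RO (randomOracle)
open Pool.Agent.W900.CH (Close)
open MeasureTheory

theorem result (g : ℕ → ℝ) :
    ((∃ c : ℕ, ∀ᶠ n : ℕ in Filter.atTop, ∃ m ≥ n, g m ≤ (n : ℝ) ^ c) →
      ∀ᵐ O ∂randomOracle, ∀ A : Oracle, Close g O A →
        (∀ L, IsZPP A L ↔ IsP A L) ∧ (∀ L, IsRP A L ↔ IsP A L) ∧ ∀ L, IsBPP A L ↔ IsP A L) ∧
    ((¬ ∃ c : ℕ, ∀ᶠ n : ℕ in Filter.atTop, ∃ m ≥ n, g m ≤ (n : ℝ) ^ c) →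
      ∀ᵐ O ∂randomOracle, ∃ A : Oracle, Close g O A ∧
        ∃ L, IsZPP A L ∧ IsRP A L ∧ IsRP A Lᶜ ∧ ¬ IsP A L) := by
  refine ⟨fun h => ?_, fun h => ?_⟩
  · have hs : ¬ Super g := by
      unfold Super
      push Not
      exact h
    obtain ⟨c, hc⟩ := pclose_of_not_super hs
    filter_upwards [ae_bpp, ae_rp, ae_zpp] with O h1 h2 h3 A hA
    have hP : ∃ c, PClose c O A := ⟨c, hc O A hA⟩
    exact ⟨fun L => ⟨h3 A hP L, isZPP_of_isP⟩, fun L => ⟨h2 A hP L, isRP_of_isP⟩,
      fun L => ⟨h1 A hP L, isBPP_of_isP⟩⟩
  · have hs : Super g := by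
      by_contra hs
      unfold Super at hs
      push Not at hs
      exact h hs
    filter_upwards [exists_zpp hs] with O hO
    obtain ⟨A, hA, L, h1, h2⟩ := hO
    exact ⟨A, hA, L, h1, isRP_of_isZPP h1, isRP_compl_of_isZPP h1, h2⟩

end Pool.Agent.Results.MP_34c247_lc.ChangedStrings
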