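import Pool.Agent.H556R2.SExist

/-!
# `P = ZPP` without a fixed exponent, relative to an oracle

There is an oracle relative to which `P = ZPP` (even `P = BPP = NP ∩ coNP`, while `P ≠ NP`), but for
no exponent `c` are all languages decided with zero error in linear time decided deterministically
in time `O(n ^ c)`. The proof is in modules of helper556.
-/

set_option autoImplicit false

namespace Pool.Agent.Results.MP_34c247_lc.NoFixedExponent

open H556R2

/-- Relative to some oracle `P = RP = BPP = NP ∩ coNP ≠ NP` and `ZPTIME(n) ⊄ DTIME(n ^ c)` for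
all `c`. -/
theorem result : ∃ A : Oracle, ClassP A = ClassRP A ∧ ClassP A = ClassBPP A ∧
    ClassP A = ClassNP A ∩ ClassCoNP A ∧ ClassP A ≠ ClassNP A ∧
    ∀ c, ¬ ClassZPTIME1 A ⊆ ClassDTIME c A :=
  no_fixed_exponent

end Pool.Agent.Results.MP_34c247_lc.NoFixedExponent
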