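import Pool.Agent.W902.Z.Main

/-!
# Zero-error randomness cannot be replaced by determinism in linear time

For branching programs running in linear time we separate the analogues of `ZPP` and `P`, for
functions defined on all inputs: there are functions with zero-error randomised programs which are
as simple as possible (a constant number of random choices, then `O(n)` nodes and one ordered pass
over the input, the probability of no answer is an arbitrarily small constant), whereas
deterministic programs with `k n` queries need `2 ^ (n / D)` nodes, i.e. space proportional to `n`,
even if they may fail on a sufficiently small constant part of the inputs.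

The functions. Let `G` be a group generated by the subgroups `K_z`, `z` in the integers mod `M`, which
acts on a set of about `n` vectors (`K_z` and `K_z'` commute unless `z`, `z'` are adjacent, and
adjacent ones generate Heisenberg groups). The orbits of the subgroup generated by the `K_z` with
`z ∈ W` are large for `W` the set of all `z`, but of constant size if some `z` is omitted. For each
set `W` of `2 (k + 2)` elements one takes a random quadratic form which consists of products of
variables in the same orbit of the subgroup for `W`. The program `z` computes the values of the
forms with `z ∉ W`. The integers mod `M` are divided into groups; the function is `1` if for some set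
of groups the forms of all `W` which meet exactly these groups have the prescribed value `1`. Both
values of the function have certificates which involve few of the `z`. The lower bound: the parity
of all the forms correlates with the function, but is balanced on most of the rectangles into which
the inputs of a program of length `k n` are partitioned (Ajtai; Beame, Saks, Sun, Vee; in the form
proved in `Pool.Agent.H554R2.Rnd`). Here one uses that for most pairs of sets `A`, `B` of variables
which are read in different time intervals, there is a `W` such that many orbits for `W` contain
many elements of `A` and of `B`; this follows from the small angles between the averaging operators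
of the subgroups. This last step (`Pool.Agent.W766.ZCross.main`) was done by helper766.
-/

set_option autoImplicit false

namespace Pool.Agent.Results.MP_34c247_lc.ZeroErrorNotDeterministic

open Finset Filter Pool.Agent.H554R2.Sem Pool.Agent.H554R2.Coin

open Classical in
/-- `f` has zero-error randomised programs: there are `m ≤ D` deterministic programs, each with at
most `D n` nodes, which on all inputs queries the same variables in the same order, each at most
once, and outputs `some true`, `some false` or `none` (no answer). They never err, and for each
input at most `m / e` of them give no answer. -/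
def ZeroError {n : ℕ} (f : Pt n → Bool) (D e : ℕ) : Prop :=
  ∃ (m : ℕ) (q : Fin m → Pt n → Option Bool), 0 < m ∧ m ≤ D ∧
    (∀ j, ∃ (U : BP (Fin n) (Option Bool)) (l : List (Fin n)), Fintype.card U.State ≤ D * n ∧
      l.Nodup ∧ ∀ x : Pt n, U.Comp x l (q j x)) ∧
    (∀ x j b, q j x = some b → f x = b) ∧
    (∀ x, e * (univ.filter fun j => q j x = none).card ≤ m)

open Classical in
/-- Each deterministic program with fewer than `2 ^ (n / D)` nodes fails to output `f x` after at
most `t` queries for at least `2 ^ n / D` of the inputs `x`. -/
def Hard {n : ℕ} (f : Pt n → Bool) (D t : ℕ) : Prop :=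
  ∀ P : BP (Fin n) Bool, Fintype.card P.State < 2 ^ (n / D) →
    2 ^ n ≤ D * (univ.filter fun x => ¬ ∃ l, P.Comp x l (f x) ∧ l.length ≤ t).card

/-- 1. For all `k`, `e` there is a constant `D` such that for all `n ≥ D` there is a function of `n`
variables with zero-error ordered read-once programs of size `D n` which take one of at most `D`
random choices and give no answer with probability at most `1 / e`, while deterministic programs
of size less than `2 ^ (n / D)` with at most `k n` queries fail on at least `2 ^ n / D` inputs.

2. For every function `h` which tends to infinity, there is one sequence of functions for which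
this holds for all `k` and `e` and all large `n`, with `h n` in place of `D`. -/
theorem result :
    (∀ k e : ℕ, ∃ D : ℕ, 0 < D ∧ ∀ n ≥ D, ∃ f : Pt n → Bool, ZeroError f D e ∧
      Hard f D (k * n)) ∧
    ∀ h : ℕ → ℕ, Tendsto h atTop atTop → ∃ f : ∀ n, Pt n → Bool, ∀ k e : ℕ, ∃ N, ∀ n ≥ N,
      ZeroError (f n) (h n) e ∧ Hard (f n) (h n) (k * n) := by
  classical
  have hfix : ∀ k e : ℕ, ∃ D : ℕ, 0 < D ∧ ∀ n ≥ D, ∃ f : Pt n → Bool, ZeroError f D e ∧
      Hard f D (k * n) := Pool.Agent.W902.Z.fixedZ
  refine ⟨hfix, ?_⟩
  intro h hh
  choose D hD0 hD using fun k => hfix k k
  let j : ℕ → ℕ := fun n => Nat.findGreatest (fun k => D k ≤ n ∧ D k ≤ h n) n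
  let f : ∀ n, Pt n → Bool := fun n =>
    if hn : D (j n) ≤ n then (hD (j n) n hn).choose else fun _ => false
  refine ⟨f, fun k e => ?_⟩
  obtain ⟨K, hK⟩ : ∃ K, K = max k e := ⟨_, rfl⟩
  have hKk : k ≤ K := by rw [hK]; exact le_max_left _ _
  have hKe : e ≤ K := by rw [hK]; exact le_max_right _ _
  obtain ⟨N, hN⟩ := eventually_atTop.1 (tendsto_atTop.1 hh (D K))
  refine ⟨max N (max K (D K)), fun n hn => ?_⟩
  have n1 : N ≤ n := (le_max_left _ _).trans hn
  have n2 : K ≤ n := ((le_max_left _ _).trans (le_max_right _ _)).trans hn
  have n3 : D K ≤ n := ((le_max_right _ _).trans (le_max_right _ _)).trans hn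
  have hj1 : K ≤ j n := Nat.le_findGreatest n2 ⟨n3, hN n n1⟩
  have hj2 : D (j n) ≤ n ∧ D (j n) ≤ h n :=
    Nat.findGreatest_spec (P := fun k => D k ≤ n ∧ D k ≤ h n) n2 ⟨n3, hN n n1⟩
  have hfn : f n = (hD (j n) n hj2.1).choose := by
    show (if hn : D (j n) ≤ n then (hD (j n) n hn).choose else fun _ => false) = _
    rw [dif_pos hj2.1]
  obtain ⟨s1, s2⟩ := (hD (j n) n hj2.1).choose_spec
  rw [← hfn] at s1 s2
  exact ⟨Pool.Agent.W902.Z.ZeroErr.mono s1 hj2.2 (hKe.trans hj1),
    Pool.Agent.W902.Z.HardAvg.mono s2 (hD0 _) hj2.2
      (Nat.mul_le_mul_right _ (hKk.trans hj1))⟩

end Pool.Agent.Results.MP_34c247_lc.ZeroErrorNotDeterministic
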